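import Pool.Agent.H661.Luzin.Main

/-!
# MP_00b9ef: a computable function which shrinks the non-weakly-3-random reals but fails (N)

The answer to Q1 is yes.  How the definitions match the problem file:

* `ComputableOnUnit f`: `f` is a computable real-valued function on `[0,1]`
  (values at rational points uniformly computable, computable modulus of uniform continuity).
* `halting`: the characteristic function of the halting set, as an oracle.
* `IsPi02Halting P`: `P` is a `Π⁰₂(∅′)` class contained in `[0,1]`: an intersection of a sequence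
  of open sets, uniformly generated by sets of dyadic balls which are c.e. relative to the
  halting set (domains of functions recursive in the halting set).
* `W3R`: the weakly 3-random reals in `[0,1]`, those in no null `Π⁰₂(∅′)` class.
-/

open MeasureTheory Set

namespace Pool.Agent.Results.MP_00b9ef_lc.LuzinW3R

/-- `f` is computable on `[0,1]`: the values at the rational points `a / (b + 1)` of `[0,1]` are
computable real numbers, uniformly in `a, b` (the `n`-th rational approximation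
`(u - v) / (w + 1)` has error at most `2⁻ⁿ`), and `f` has a computable modulus of uniform
continuity on `[0,1]`. -/
def ComputableOnUnit (f : ℝ → ℝ) : Prop :=
  (∃ u v w : ℕ → ℕ → ℕ → ℕ,
    Computable (fun q : ℕ × (ℕ × ℕ) => u q.1 q.2.1 q.2.2) ∧
    Computable (fun q : ℕ × (ℕ × ℕ) => v q.1 q.2.1 q.2.2) ∧
    Computable (fun q : ℕ × (ℕ × ℕ) => w q.1 q.2.1 q.2.2) ∧
    ∀ a b n : ℕ, a ≤ b + 1 →
      |f ((a : ℝ) / ((b : ℝ) + 1)) - ((u a b n : ℝ) - (v a b n : ℝ)) / ((w a b n : ℝ) + 1)| ≤
        1 / 2 ^ n) ∧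
  ∃ h : ℕ → ℕ, Computable h ∧ ∀ n : ℕ, ∀ x ∈ Icc (0 : ℝ) 1, ∀ y ∈ Icc (0 : ℝ) 1,
    |x - y| ≤ 1 / 2 ^ h n → |f x - f y| ≤ 1 / 2 ^ n

open Classical in
/-- The characteristic function of the halting set: on input `⟨e, m⟩` the value is `1` if the
`e`-th program halts on input `m`, and `0` otherwise. -/
noncomputable def halting : ℕ →. ℕ := fun n =>
  Part.some (if ((Denumerable.ofNat Nat.Partrec.Code n.unpair.1).eval n.unpair.2).Dom then 1 else 0)

/-- The open ball with centre `a / 2 ^ s` and radius `1 / 2 ^ s`, where `i = ⟨a, s⟩`. -/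
def dyadicBall (i : ℕ) : Set ℝ := Metric.ball ((i.unpair.1 : ℝ) / 2 ^ i.unpair.2) (1 / 2 ^ i.unpair.2)

/-- `P` is a `Π⁰₂(∅′)` class in `[0,1]`: for some partial function `g` which is recursive in the
halting set, `x ∈ P` if and only if `x ∈ [0,1]` and, for every `n`, `x` is in some ball `i` with
`g ⟨n, i⟩` defined. -/
def IsPi02Halting (P : Set ℝ) : Prop :=
  ∃ g : ℕ →. ℕ, Nat.RecursiveIn {halting} g ∧
    P = {x : ℝ | x ∈ Icc (0 : ℝ) 1 ∧ ∀ n : ℕ, ∃ i : ℕ, (g (Nat.pair n i)).Dom ∧ x ∈ dyadicBall i}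

/-- The weakly 3-random reals in `[0,1]`: those in no null `Π⁰₂(∅′)` class. -/
def W3R : Set ℝ := {x : ℝ | x ∈ Icc (0 : ℝ) 1 ∧ ∀ P : Set ℝ, IsPi02Halting P → volume P = 0 → x ∉ P}

/-- There is a computable function `f` on `[0,1]` such that `f` maps the set of reals of `[0,1]`
which are not weakly 3-random to a null set, but `f` does not have Luzin's property (N). -/
theorem result : ∃ f : ℝ → ℝ, ComputableOnUnit f ∧
    volume (f '' (Icc (0 : ℝ) 1 \ W3R)) = 0 ∧
    ∃ A : Set ℝ, A ⊆ Icc (0 : ℝ) 1 ∧ volume A = 0 ∧ volume (f '' A) ≠ 0 := by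
  have hhalt : halting = Pool.Agent.H661.Luzin.haltChar := rfl
  have hball : ∀ i, dyadicBall i = Pool.Agent.H661.Luzin.Bl i := by
    intro i
    ext x
    unfold dyadicBall Pool.Agent.H661.Luzin.Bl
    rw [Metric.mem_ball, Real.dist_eq, mem_ofPred_eq]
  refine ⟨Pool.Agent.H661.Luzin.US.f, ⟨?_, ?_⟩, ?_, ?_⟩
  · refine ⟨fun a b n => Pool.Agent.H661.Luzin.fN n a (b + 1), fun _ _ _ => 0,
      fun a b n => 2 ^ (2 * n + 2) * (b + 1) - 1, ?_, Computable.const 0, ?_, ?_⟩
    · exact (Pool.Agent.H661.Luzin.pr_fN.comp (Primrec.pair (Primrec.snd.comp Primrec.snd)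
        (Primrec.pair Primrec.fst (Primrec.succ.comp (Primrec.fst.comp Primrec.snd))))).to_comp
    · have h1 : Primrec (fun q : ℕ × (ℕ × ℕ) => 2 ^ (2 * q.2.2 + 2) * (q.2.1 + 1) - 1) := by
        refine Primrec.nat_sub.comp (Primrec.nat_mul.comp ?_ ?_) (Primrec.const 1)
        · exact Pool.Agent.H661.Luzin.pr_pow2.comp (Primrec.nat_add.comp (Primrec.nat_mul.comp
            (Primrec.const 2) (Primrec.snd.comp Primrec.snd)) (Primrec.const 2))
        · exact Primrec.succ.comp (Primrec.fst.comp Primrec.snd)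
      exact h1.to_comp
    · intro a b n _
      have h1 := Pool.Agent.H661.Luzin.f_approx n a (b + 1) (Nat.succ_pos b)
      have h2 : ((2 ^ (2 * n + 2) * (b + 1) - 1 : ℕ) : ℝ) + 1 =
          2 ^ (2 * n + 2) * ((b + 1 : ℕ) : ℝ) := by
        rw [Nat.cast_sub (Nat.mul_pos (by positivity) (Nat.succ_pos b))]
        push_cast
        ring
      rw [h2]
      push_cast at h1 ⊢
      rw [sub_zero]
      exact h1
  · refine ⟨fun n => 2 * Pool.Agent.H661.Luzin.nb (n + 3) + n + 3, ?_, ?_⟩
    · have h1 : Primrec (fun n : ℕ => 2 * Pool.Agent.H661.Luzin.nb (n + 3) + n + 3) :=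
        Primrec.nat_add.comp (Primrec.nat_add.comp (Primrec.nat_mul.comp (Primrec.const 2)
          (Pool.Agent.H661.Luzin.pr_nb.comp (Primrec.nat_add.comp Primrec.id (Primrec.const 3))))
          Primrec.id) (Primrec.const 3)
      exact h1.to_comp
    · intro n x _ y _ h
      exact Pool.Agent.H661.Luzin.US.f_modulus n x y h
  · refine measure_mono_null (image_mono ?_) Pool.Agent.H661.Luzin.main_null
    rintro x ⟨hx, hnot⟩
    have h1 : ¬ ∀ P : Set ℝ, IsPi02Halting P → volume P = 0 → x ∉ P := fun h => hnot ⟨hx, h⟩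
    push Not at h1
    obtain ⟨P, ⟨g, hg, rfl⟩, hP0, hxP⟩ := h1
    simp only [hball] at hP0 hxP
    rw [hhalt] at hg
    exact ⟨hx, g, hg, hP0, hxP.2⟩
  · exact Pool.Agent.H661.Luzin.US.not_luzin Pool.Agent.H661.Luzin.coin_GG

end Pool.Agent.Results.MP_00b9ef_lc.LuzinW3R
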